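import Pool.Agent.R387.EM.Towers

/-!
# Finite generation for blow-ups of projective spaces

Let `S` be a class of regular connected schemes proper over `ℤ`, flat or not, for example all those
which are projective over `ℤ`. Let `H^p(X, n)` be the étale motivic cohomology `H^p(X_et, ℤ(n))`. Q1 for
`X` says that `H^p(X, d)` is finitely generated for all `p ≤ 2 d`, `d = dim X`. We assume the projective
bundle formula and the blow-up formula in the weights `n ≥ dim`, the finite generation for `Spec ℤ`
(known), and the fact that `H^p(X, d)` is a rational vector space for `p < 0` (see the problem file). A
tower is a scheme which is obtained from a projective space over `ℤ` by finitely many blow-ups along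
schemes in `S` (flat or not flat over `ℤ`); so it is flat over `ℤ` and its generic fibre is rational.

**Theorem.** (1) Q1 holds for all towers if and only if for all `X` in `S`, flat or not, all weights
`n > dim X` and all `p ≤ 2 n` the group `H^p(X, n)` is finitely generated, and zero for `p < 0`.

(2) Let `φ` be an unbounded function. It suffices that for all towers `B` the groups `H^p(B, dim B)` are
finitely generated in the degrees `2 dim B - φ(dim B) ≤ p ≤ 2 dim B`. More precisely the statement on the
degrees `2 dim B - r` for all towers is equivalent to the statement on the degrees `2 n - r`, `n > dim X`,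
for all `X`, for every `r ≥ 0`.

(3) If Q1 holds for all towers, then Q1 is invariant under blow-ups of schemes in `S` along schemes in
`S` and under products with projective spaces.
-/

open Pool.Agent.R387.EM Pool.Agent.R387.EM.Towers

namespace Pool.Agent.Results.MP_b197b4_nt.BlowUpsOfProjectiveSpaces

theorem result {S : VarClass} {D : Data S} (h : IsData D) :
    TowersIff D ∧ (∀ φ : ℕ → ℕ, ¬ BddAbove (Set.range φ) → (NearTop D φ ↔ HighWeights D)) ∧
      (∀ r, OneCodegree D r) ∧ Invariance D :=
  ⟨towersIff h, fun _ hφ => nearTop_iff h hφ, oneCodegree h, invariance h⟩

end Pool.Agent.Results.MP_b197b4_nt.BlowUpsOfProjectiveSpaces
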