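import Pool.Agent.R166.SW.Fg

/-!
# MP_b197b4_nt: finite generation in the weight `d` and complements of elementary arrangements

An elementary arrangement is a finite union of hypersurfaces of the forms `x_i x_j = x_k`,
`x_i + x_j = x_k`, `x_i = 1` in an affine space over `ℤ`. Its complement `compl a` is the spectrum of
`ℤ[x_1, …, x_N, 1/a]`, where `a` is the product of the polynomials `x_i x_j - x_k`, `x_i + x_j - x_k`,
`x_i - 1`, a smooth affine scheme over `ℤ`, open in affine space, of dimension `N + 1`.

`EtTheory` lists the properties of the groups `H w i X = Hⁱ(X_et, ℤᶜ(-w))` which are used. For regular `X`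
of pure dimension `d` this is `H^{2d+i}(X_et, ℤ(d+w))`, and Q1 says that `H 0 i X` is finitely generated
for `i ≤ 0`, for regular connected proper `X`.

1. For every weight `-w ≤ 0` and every `m`: the groups `Hⁱ(X_et, ℤᶜ(-w))`, `i ≤ m`, are finitely generated
for all separated schemes of finite type over `ℤ` if and only if this is so for the complements of
elementary arrangements.

2. If this is so in the weight `-w` for `i ≤ m`, then in the weight `-w-k` for `i ≤ m + 2k`.

3. So if `H^p(U_et, ℤ(dim U))` is finitely generated for `p ≤ 2 dim U` for the complements `U` of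
elementary arrangements, then for all regular separated schemes `X` of finite type over `ℤ`, proper or not,
of dimension `d`, and all weights `n = d + w ≥ d`: the group `H^p(X_et, ℤ(n))` is finitely generated for
`p ≤ 2n` (here `p = 2d + i`), and it is zero for `p < 0` (Beilinson-Soulé vanishing in these weights).

4. In particular Q1 holds then.

The proof. Localization sequences; every finitely generated ring is `ℤ[x_1, …, x_N]` modulo elementary
polynomials (R904.EL.Elem), so every affine scheme of finite type is the complement in an affine space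
of a finite union of opens `a ≠ 0`, whose intersections are complements of elementary arrangements;
Mayer-Vietoris and noetherian induction (R904.EL.Main, of helper904). The vanishing follows since the
groups in negative degrees are rational vector spaces.
-/

set_option autoImplicit false

open CategoryTheory AlgebraicGeometry
open Pool.Agent.R904.CU Pool.Agent.R904.EL Pool.Agent.R166.SW

namespace Pool.Agent.Results.MP_b197b4_nt.ElementaryArrangements

/-- Q1: for all proper, regular, connected `X` the groups `H^p(X_et, ℤ(d)) = H^{p-2d}(X_et, ℤᶜ(0))`,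
`p ≤ 2d`, are finitely generated. -/
def Q1 (T : EtTheory) : Prop :=
  ∀ (X : Scheme.{0}) (f : X ⟶ Spec (.of ℤ)), IsProper f → ConnectedSpace X →
    (∀ x : X, IsRegularLocalRing (X.presheaf.stalk x)) → ∀ i : ℤ, i ≤ 0 → AddGroup.FG (T.H 0 i X)

/-- For all regular separated schemes `X` of finite type over `ℤ`, of dimension `d`, and all `w ≥ 0`, the
groups `H^{2d+i}(X_et, ℤ(d+w)) = Hⁱ(X_et, ℤᶜ(-w))` are finitely generated for `i ≤ 2w`, and zero for
`i < -2d`. -/
def AllWeights (T : EtTheory) : Prop :=
  ∀ (X : Scheme.{0}) (f : X ⟶ Spec (.of ℤ)), SepFinType ℤ X f →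
    (∀ x : X, IsRegularLocalRing (X.presheaf.stalk x)) → ∀ d : ℕ, topologicalKrullDim X = d →
      ∀ (w : ℕ) (i : ℤ), (i ≤ 2 * (w : ℤ) → AddGroup.FG (T.H w i X)) ∧
        (i < -2 * (d : ℤ) → Subsingleton (T.H w i X))

/-- **Main theorem.** -/
theorem result (T : EtTheory) :
    (∀ (w : ℕ) (m : ℤ), T.AllFG w m ↔ T.ArrFG w m) ∧
    (∀ (w : ℕ) (m : ℤ), T.ArrFG w m → ∀ k : ℕ, T.AllFG (w + k) (m + 2 * k)) ∧
    (T.ArrFG 0 0 → AllWeights T) ∧
    (T.ArrFG 0 0 → Q1 T) := by
  refine ⟨T.allFG_iff, fun w m h k => T.allFG_add w m ((T.allFG_iff w m).2 h) k,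
    fun h X f hf hX d hd w i => ?_, fun h X f hf _ _ i hi => ?_⟩
  · have h1 := T.allFG_add 0 0 ((T.allFG_iff 0 0).2 h) w
    rw [zero_add, zero_add] at h1
    refine ⟨fun hi => h1 X f hf i hi, fun hi => ?_⟩
    exact T.vanish hf hX hd hi (h1 X f hf i (by omega))
  · exact (T.allFG_iff 0 0).2 h X f ⟨inferInstance, inferInstance, inferInstance⟩ i hi

end Pool.Agent.Results.MP_b197b4_nt.ElementaryArrangements
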